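import Pool.Agent.H27.L1.H34.GM.Targets2

/-!
# Board gmf_modules (MP_52e316_nt): basic facts on `sz`, `aN`, `kk` (used by rows FNT and HS)
-/

set_option autoImplicit false

namespace Pool.Agent.H27.L1.H17.GM

open MeasureTheory Metric Pool.Agent.H27.L1.H34.GM

variable {m : ℕ}

theorem gb_sz_nonneg (x : Mat m) : 0 ≤ sz x := norm_nonneg _

theorem gb_entry (x : Mat m) (i j : Fin m) : |x i j| ≤ sz x := by
  have h1 := norm_le_pi_norm (fun i j => x i j : V m) i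
  have h2 := norm_le_pi_norm ((fun i j => x i j : V m) i) j
  exact h2.trans h1

theorem gb_sz_le {x : Mat m} {c : ℝ} (hc : 0 ≤ c) (h : ∀ i j, |x i j| ≤ c) : sz x ≤ c := by
  unfold sz
  refine (pi_norm_le_iff_of_nonneg hc).2 fun i => (pi_norm_le_iff_of_nonneg hc).2 fun j => ?_
  exact h i j

theorem gb_sz_mul (x y : Mat m) : sz (x * y) ≤ m * sz x * sz y := by
  refine gb_sz_le (by have := gb_sz_nonneg x; have := gb_sz_nonneg y; positivity) ?_
  intro i j
  rw [Matrix.mul_apply]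
  refine (Finset.abs_sum_le_sum_abs _ _).trans ?_
  have h1 : ∀ k ∈ Finset.univ, |x i k * y k j| ≤ sz x * sz y := by
    intro k _
    rw [abs_mul]
    exact mul_le_mul (gb_entry x i k) (gb_entry y k j) (abs_nonneg _) (gb_sz_nonneg x)
  refine (Finset.sum_le_sum h1).trans ?_
  simp [mul_assoc]

theorem gb_sz_smul (c : ℝ) (x : Mat m) : sz (c • x) = |c| * sz x := by
  unfold sz
  have : (fun i j => (c • x) i j : V m) = c • (fun i j => x i j : V m) := rfl
  rw [this, norm_smul, Real.norm_eq_abs]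

theorem gb_sz_zero_iff (x : Mat m) : sz x = 0 ↔ x = 0 := by
  unfold sz
  rw [norm_eq_zero]
  constructor
  · intro h
    ext i j
    exact congrFun (congrFun h i) j
  · rintro rfl
    rfl

theorem gb_aN_nonneg (g : Mat m) : 0 ≤ aN g := Real.rpow_nonneg (abs_nonneg _) _

theorem gb_aN_pos {g : Mat m} (hg : g.det ≠ 0) : 0 < aN g :=
  Real.rpow_pos_of_pos (abs_pos.2 hg) _

theorem gb_aN_mul {γ : Mat m} (h : |γ.det| = 1) (z : Mat m) : aN (γ * z) = aN z := by
  unfold aN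
  rw [Matrix.det_mul, abs_mul, h, one_mul]

theorem gb_inv_eq {γ δ : Mat m} (h1 : γ * δ = 1) : γ⁻¹ = δ := Matrix.inv_eq_right_inv h1

/-- left translation of the first argument of `kk` -/
theorem gb_kk_left {γ δ : Mat m} (h : |γ.det| = 1) (h1 : γ * δ = 1) (r : ℝ) (z α g : Mat m) :
    kk r (γ * z) α g = kk r z (δ * α) g := by
  unfold kk
  rw [gb_aN_mul h, Matrix.mul_inv_rev, gb_inv_eq h1]
  simp only [Matrix.mul_assoc]

/-- left translation of the last argument of `kk` -/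
theorem gb_kk_right {γ : Mat m} (h : |γ.det| = 1) (r : ℝ) (z α g : Mat m) :
    kk r z α (γ * g) = kk r z (α * γ) g := by
  unfold kk
  rw [gb_aN_mul h]
  simp only [Matrix.mul_assoc]

/-- the size of the middle argument of `kk` -/
theorem gb_kk_size (r : ℝ) (hr : 0 < r) {h g : Mat m} (hh : h.det ≠ 0) (hg : g.det ≠ 0)
    (x : Mat m) :
    r⁻¹ * aN h / aN g * sz x ≤ m * m * sz h * sz (kk r h x g) * sz g⁻¹ := by
  have h0 : 0 < r⁻¹ * aN h / aN g :=
    div_pos (mul_pos (inv_pos.2 hr) (gb_aN_pos hh)) (gb_aN_pos hg)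
  have e1 : (r⁻¹ * aN h / aN g) • x = h * kk r h x g * g⁻¹ := by
    unfold kk
    rw [Matrix.mul_smul, Matrix.smul_mul]
    congr 1
    have hu : IsUnit h.det := isUnit_iff_ne_zero.2 hh
    have gu : IsUnit g.det := isUnit_iff_ne_zero.2 hg
    rw [Matrix.mul_assoc, Matrix.mul_assoc, Matrix.mul_assoc, Matrix.mul_nonsing_inv _ gu,
      Matrix.mul_one, ← Matrix.mul_assoc, Matrix.mul_nonsing_inv _ hu, Matrix.one_mul]
  have e2 := gb_sz_smul (r⁻¹ * aN h / aN g) x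
  rw [abs_of_pos h0] at e2
  rw [← e2, e1]
  refine (gb_sz_mul _ _).trans ?_
  have e3 := gb_sz_mul h (kk r h x g)
  have e4 := gb_sz_nonneg g⁻¹
  calc (m : ℝ) * sz (h * kk r h x g) * sz g⁻¹
      ≤ (m : ℝ) * (m * sz h * sz (kk r h x g)) * sz g⁻¹ := by gcongr
    _ = _ := by ring

theorem gb_det_le (x : Mat m) : |x.det| ≤ (m.factorial : ℝ) * sz x ^ m := by
  have h := Matrix.det_le (A := x) (abv := AbsoluteValue.abs) (x := sz x)
    (fun i j => gb_entry x i j)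
  rw [Fintype.card_fin, nsmul_eq_mul] at h
  exact h

/-- the minimum of the lattice `O` -/
theorem gb_min (hm : 1 ≤ m) {x : Mat m} (hx : 1 ≤ |x.det|) : 1 / (m.factorial : ℝ) ≤ sz x := by
  by_contra hc
  push Not at hc
  have hf : (1 : ℝ) ≤ m.factorial := by exact_mod_cast m.factorial_pos
  have h0 := gb_sz_nonneg x
  have h1 : sz x ≤ 1 := hc.le.trans (by rw [div_le_one (by linarith)]; exact hf)
  have h2 : sz x ^ m ≤ sz x := pow_le_of_le_one h0 h1 (by omega)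
  have h3 := gb_det_le x
  have h4 : (m.factorial : ℝ) * sz x < 1 := by
    rw [lt_div_iff₀ (by linarith)] at hc
    linarith
  have h5 : (m.factorial : ℝ) * sz x ^ m ≤ (m.factorial : ℝ) * sz x := by gcongr
  linarith

theorem gb_unit_inv {O : Subring (Mat m)} {γ δ : Mat m} (h1 : γ ∈ O) (h2 : δ ∈ O)
    (h3 : γ * δ = 1) (h4 : δ * γ = 1) : δ ∈ UnitsOf O := ⟨h2, γ, h1, h4, h3⟩

theorem gb_det_ne {γ : Mat m} (h : |γ.det| = 1) {z : Mat m} (hz : z.det ≠ 0) :
    (γ * z).det ≠ 0 := by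
  rw [Matrix.det_mul]
  refine mul_ne_zero (fun h0 => ?_) hz
  rw [h0, abs_zero] at h
  exact zero_ne_one h

theorem gb_shell_det {z : V m} (hz : z ∈ Shell m) (hm : 1 ≤ m) : (mt z).det ≠ 0 := by
  intro h0
  have h1 := hz.1
  unfold aN at h1
  rw [h0, abs_zero, Real.zero_rpow (by positivity)] at h1
  linarith

/-- the reduced part of the shell -/
def Om (m : ℕ) (C : ℝ) : Set (V m) :=
  {z | z ∈ Shell m ∧ sz (mt z) ≤ C * Real.exp 1 ∧ sz (mt z)⁻¹ ≤ C}

theorem gb_Om_meas (hMSR : T_MSR) (C : ℝ) : MeasurableSet (Om m C) := by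
  obtain ⟨h1, -, -⟩ := hMSR
  obtain ⟨a1, a2, a3, a4, a5, a6, a7, a8⟩ := h1 m
  refine a6.inter ((measurableSet_le a4 measurable_const).inter ?_)
  exact measurableSet_le (a4.comp a1) measurable_const

theorem gb_Om_cover {O : Subring (Mat m)} {b : Module.Basis (Fin m × Fin m) ℝ (Mat m)}
    (hNRD : T_NRD) (hm : 1 ≤ m) (hO : DivOrder m O b) {C : ℝ} (hC : 0 < C)
    (hCMP : ∀ g : Mat m, g.det ≠ 0 →
      ∃ γ ∈ UnitsOf O, sz (γ * g) ≤ C * aN g ∧ sz ((γ * g)⁻¹) ≤ C * (aN g)⁻¹) :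
    ∀ z ∈ Shell m, ∃ γ ∈ UnitsOf O, ((fun i j => (γ * mt z) i j) : V m) ∈ Om m C := by
  intro z hz
  obtain ⟨γ, hγ, h1, h2⟩ := hCMP (mt z) (gb_shell_det hz hm)
  have hd := (hNRD m O b hm hO).2.2.2 γ hγ
  refine ⟨γ, hγ, ?_, ?_, ?_⟩
  · change 1 ≤ aN (γ * mt z) ∧ aN (γ * mt z) < Real.exp 1
    rw [gb_aN_mul hd]
    exact hz
  · change sz (γ * mt z) ≤ _
    exact h1.trans (by have := hz.2.le; gcongr)
  · change sz (γ * mt z)⁻¹ ≤ _
    refine h2.trans ?_
    have h3 : (aN (mt z))⁻¹ ≤ 1 := inv_le_one_of_one_le₀ hz.1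
    nlinarith

theorem gb_one_le_det {z : Mat m} (h1m : 1 ≤ m) (h : 1 ≤ aN z) : 1 ≤ |z.det| := by
  by_contra hc
  push Not at hc
  have := Real.rpow_lt_one (abs_nonneg z.det) hc
    (show 0 < 1 / (m : ℝ) from div_pos one_pos (by exact_mod_cast h1m))
  unfold aN at h
  linarith

theorem gb_Om_fin (hHAR : T_HAR) (h1m : 1 ≤ m) (C : ℝ) : hm m (Om m C) < ⊤ := by
  obtain ⟨-, -, -, h4⟩ := hHAR m h1m
  have h5 := h4 (max (C * Real.exp 1) 1) (lt_of_lt_of_le one_pos (le_max_right _ _))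
  refine lt_of_le_of_lt (measure_mono ?_) h5
  intro z hz
  refine ⟨hz.2.1.trans (le_max_left _ _), ?_⟩
  have h6 := gb_one_le_det h1m hz.1.1
  exact (inv_le_one_of_one_le₀ (le_max_right _ _)).trans h6

end Pool.Agent.H27.L1.H17.GM
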